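import Mathlib

set_option autoImplicit false

namespace Pool.Agent.H.MP24ae9b

open Finset

def J : ℕ → ℕ → ℕ
  | 0, _ => 0
  | f + 1, m => if m ≤ 1 then 0 else J f (m / 2) + J f ((m + 1) / 2) + m / 2

theorem J_small (f m : ℕ) (h : m ≤ 1) : J f m = 0 := by
  cases f with
  | zero => rfl
  | succ f => simp [J, h]

theorem J_stable : ∀ f g m : ℕ, m ≤ f → m ≤ g → J f m = J g m := by
  intro f
  induction f with
  | zero => intro g m h _; rw [J_small _ _ (by omega), J_small _ _ (by omega)]
  | succ f ih =>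
    intro g m h hg
    by_cases hm : m ≤ 1
    · rw [J_small _ _ hm, J_small _ _ hm]
    · obtain ⟨g, rfl⟩ : ∃ g', g = g' + 1 := ⟨g - 1, by omega⟩
      simp only [J, hm, if_false]
      rw [ih g (m / 2) (by omega) (by omega), ih g ((m + 1) / 2) (by omega) (by omega)]

def I (m : ℕ) : ℕ := J m m

theorem I_zero : I 0 = 0 := rfl
theorem I_one : I 1 = 0 := rfl

theorem I_eq (m : ℕ) (h : 2 ≤ m) : I m = I (m / 2) + I ((m + 1) / 2) + m / 2 := by
  obtain ⟨f, rfl⟩ : ∃ f, m = f + 1 := ⟨m - 1, by omega⟩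
  have hm : ¬ f + 1 ≤ 1 := by omega
  unfold I
  simp only [J, hm, if_false]
  rw [J_stable f ((f + 1) / 2) ((f + 1) / 2) (by omega) le_rfl,
    J_stable f ((f + 1 + 1) / 2) ((f + 1 + 1) / 2) (by omega) le_rfl]

theorem I_even (p : ℕ) : I (2 * p) = 2 * I p + p := by
  rcases Nat.eq_zero_or_pos p with rfl | hp
  · rfl
  · rw [I_eq _ (by omega), show 2 * p / 2 = p by omega, show (2 * p + 1) / 2 = p by omega]; ring

theorem I_odd (p : ℕ) : I (2 * p + 1) = I p + I (p + 1) + p := by
  rcases Nat.eq_zero_or_pos p with rfl | hp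
  · rfl
  · rw [I_eq _ (by omega), show (2 * p + 1) / 2 = p by omega,
      show (2 * p + 1 + 1) / 2 = p + 1 by omega]

theorem I_super : ∀ s a b : ℕ, a + b = s → I a + I b + min a b ≤ I (a + b) := by
  intro s
  induction s using Nat.strong_induction_on with
  | _ s ih =>
    intro a b hs
    rcases Nat.eq_zero_or_pos a with rfl | ha
    · simp [I_zero]
    rcases Nat.eq_zero_or_pos b with rfl | hb
    · simp [I_zero]
    obtain ⟨p, hp | hp⟩ := Nat.even_or_odd' a
    · obtain ⟨q, hq | hq⟩ := Nat.even_or_odd' b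
      · subst hp hq
        have h1 := ih (p + q) (by omega) p q rfl
        rw [show 2 * p + 2 * q = 2 * (p + q) by ring, I_even, I_even, I_even]
        omega
      · subst hp hq
        have h1 := ih (p + q) (by omega) p q rfl
        have h2 := ih (p + (q + 1)) (by omega) p (q + 1) rfl
        rw [show 2 * p + (2 * q + 1) = 2 * (p + q) + 1 by ring, I_even, I_odd, I_odd]
        rw [show p + (q + 1) = p + q + 1 by ring] at h2
        omega
    · obtain ⟨q, hq | hq⟩ := Nat.even_or_odd' b
      · subst hp hq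
        have h1 := ih (p + q) (by omega) p q rfl
        have h2 := ih (p + 1 + q) (by omega) (p + 1) q rfl
        rw [show 2 * p + 1 + 2 * q = 2 * (p + q) + 1 by ring, I_even, I_odd, I_odd]
        rw [show p + 1 + q = p + q + 1 by ring] at h2
        omega
      · subst hp hq
        have h1 := ih (p + (q + 1)) (by omega) p (q + 1) rfl
        have h2 := ih (p + 1 + q) (by omega) (p + 1) q rfl
        rw [show 2 * p + 1 + (2 * q + 1) = 2 * (p + q + 1) by ring, I_even, I_odd, I_odd]
        rw [show p + 1 + q = p + q + 1 by ring] at h2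
        rw [show p + (q + 1) = p + q + 1 by ring] at h1
        omega

theorem I_chord : ∀ k m : ℕ, 2 ^ k ≤ m → m ≤ 2 ^ (k + 1) →
    2 * I m + 2 ^ (k + 1) ≤ m * (k + 2) := by
  intro k
  induction k with
  | zero =>
    intro m h1 h2
    have : m = 1 ∨ m = 2 := by omega
    rcases this with rfl | rfl <;> decide
  | succ k ih =>
    intro m h1 h2
    have e1 : 2 ^ (k + 1) = 2 * 2 ^ k := by ring
    have e2 : 2 ^ (k + 1 + 1) = 4 * 2 ^ k := by ring
    obtain ⟨p, hp | hp⟩ := Nat.even_or_odd' m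
    · subst hp
      have h := ih p (by omega) (by omega)
      rw [I_even]
      nlinarith
    · subst hp
      have h := ih p (by omega) (by omega)
      have h' := ih (p + 1) (by omega) (by omega)
      rw [I_odd]
      nlinarith

variable {α : Type*} [DecidableEq α]

def UC (F : Finset (Finset α)) : Prop := ∀ A ∈ F, ∀ B ∈ F, A ∪ B ∈ F

theorem reimer (X : Finset α) : ∀ F : Finset (Finset α), (∀ A ∈ F, A ⊆ X) → UC F →
    ∃ φ : Finset α → Finset α, (∀ A ∈ F, A ⊆ φ A ∧ φ A ⊆ X) ∧
      (∀ A ∈ F, ∀ B ∈ F, ∀ S, A ⊆ S → S ⊆ φ A → B ⊆ S → S ⊆ φ B → A = B) ∧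
      ∑ A ∈ F, (X.card - (φ A).card) ≤ I F.card := by
  induction X using Finset.induction_on with
  | empty =>
    intro F hF _
    refine ⟨fun _ => ∅, fun A hA => ⟨hF A hA, subset_rfl⟩, ?_, by simp⟩
    intro A hA B hB S _ _ _ _
    rw [subset_empty.1 (hF A hA), subset_empty.1 (hF B hB)]
  | insert x Y hx ih =>
    intro F hF hU
    set F0 := F.nonMemberSubfamily x with hF0
    set F1 := F.memberSubfamily x with hF1
    have m0 : ∀ A, A ∈ F0 ↔ A ∈ F ∧ x ∉ A := fun A => mem_nonMemberSubfamily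
    have m1 : ∀ A, A ∈ F1 ↔ insert x A ∈ F ∧ x ∉ A := fun A => mem_memberSubfamily
    have s0 : ∀ A ∈ F0, A ⊆ Y := by
      intro A hA y hy
      have := hF A ((m0 A).1 hA).1 hy
      rcases mem_insert.1 this with rfl | h
      · exact absurd hy ((m0 A).1 hA).2
      · exact h
    have s1 : ∀ A ∈ F1, A ⊆ Y := by
      intro A hA y hy
      have := hF _ ((m1 A).1 hA).1 (mem_insert_of_mem hy)
      rcases mem_insert.1 this with rfl | h
      · exact absurd hy ((m1 A).1 hA).2
      · exact h
    have u00 : ∀ A ∈ F0, ∀ B ∈ F0, A ∪ B ∈ F0 := by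
      intro A hA B hB
      rw [m0] at hA hB ⊢
      exact ⟨hU A hA.1 B hB.1, by simp [hA.2, hB.2]⟩
    have u10 : ∀ A ∈ F1, ∀ B ∈ F0, A ∪ B ∈ F1 := by
      intro A hA B hB
      rw [m1] at hA ⊢
      rw [m0] at hB
      refine ⟨?_, by simp [hA.2, hB.2]⟩
      have := hU _ hA.1 B hB.1
      rwa [insert_union] at this
    have u11 : ∀ A ∈ F1, ∀ B ∈ F1, A ∪ B ∈ F1 := by
      intro A hA B hB
      rw [m1] at hA hB ⊢
      refine ⟨?_, by simp [hA.2, hB.2]⟩
      have := hU _ hA.1 _ hB.1
      rwa [insert_union, union_insert, insert_idem] at this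
    obtain ⟨φG, g1, g2, g3⟩ := ih (F0 ∪ F1)
      (fun A hA => (mem_union.1 hA).elim (s0 A) (s1 A)) (by
        intro A hA B hB
        rcases mem_union.1 hA with hA | hA <;> rcases mem_union.1 hB with hB | hB
        · exact mem_union_left _ (u00 A hA B hB)
        · exact mem_union_right _ (union_comm A B ▸ u10 B hB A hA)
        · exact mem_union_right _ (u10 A hA B hB)
        · exact mem_union_right _ (u11 A hA B hB))
    obtain ⟨φH, h1, h2, h3⟩ := ih (F0 ∩ F1)
      (fun A hA => s0 A (mem_inter.1 hA).1) (by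
        intro A hA B hB
        exact mem_inter.2 ⟨u00 A (mem_inter.1 hA).1 B (mem_inter.1 hB).1,
          u11 A (mem_inter.1 hA).2 B (mem_inter.1 hB).2⟩)
    have eG : ∀ A ∈ F, A.erase x ∈ F0 ∪ F1 := by
      intro A hA
      by_cases hxA : x ∈ A
      · exact mem_union_right _ ((m1 _).2 ⟨by rwa [insert_erase hxA], notMem_erase x A⟩)
      · exact mem_union_left _ ((m0 _).2 ⟨by rwa [erase_eq_of_notMem hxA], notMem_erase x A⟩)
    have einj : ∀ A ∈ F, A ∉ F0 ∩ F1 → ∀ B ∈ F, B ∉ F0 ∩ F1 → A.erase x = B.erase x → A = B := by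
      intro A hA nA B hB nB h
      by_cases hxA : x ∈ A <;> by_cases hxB : x ∈ B
      · rw [← insert_erase hxA, h, insert_erase hxB]
      · exfalso
        apply nB
        refine mem_inter.2 ⟨(m0 _).2 ⟨hB, hxB⟩, (m1 _).2 ⟨?_, hxB⟩⟩
        rw [erase_eq_of_notMem hxB] at h
        rwa [← h, insert_erase hxA]
      · exfalso
        apply nA
        refine mem_inter.2 ⟨(m0 _).2 ⟨hA, hxA⟩, (m1 _).2 ⟨?_, hxA⟩⟩
        rw [erase_eq_of_notMem hxA] at h
        rwa [h, insert_erase hxB]
      · rwa [erase_eq_of_notMem hxA, erase_eq_of_notMem hxB] at h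
    have mixed : ∀ A ∈ F0 ∩ F1, ∀ B ∈ F, B ∉ F0 ∩ F1 → ∀ S, A ⊆ S → S ⊆ φH A → B ⊆ S →
        S ⊆ insert x (φG (B.erase x)) → False := by
      intro A hA B hB nB S a1 a2 b1 b2
      have hxS : x ∉ S := fun h => hx ((h1 A hA).2 (a2 h))
      have hxB : x ∉ B := fun h => hxS (b1 h)
      rw [erase_eq_of_notMem hxB] at b2
      have b3 : S ⊆ φG B := (subset_insert_iff_of_notMem hxS).1 b2
      have hB0 : B ∈ F0 := (m0 _).2 ⟨hB, hxB⟩
      have hAB : A ∪ B ∈ F0 ∪ F1 := mem_union_left _ (u00 A (mem_inter.1 hA).1 B hB0)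
      have := g2 B (mem_union_left _ hB0) (A ∪ B) hAB (A ∪ B) subset_union_right
        ((union_subset a1 b1).trans b3) subset_rfl (g1 _ hAB).1
      apply nB
      refine mem_inter.2 ⟨hB0, ?_⟩
      rw [this]
      exact u10 A (mem_inter.1 hA).2 B hB0
    refine ⟨fun A => if A ∈ F0 ∩ F1 then φH A else insert x (φG (A.erase x)), ?_, ?_, ?_⟩
    · intro A hA
      by_cases h : A ∈ F0 ∩ F1
      · simp only [h, if_true]
        exact ⟨(h1 A h).1, (h1 A h).2.trans (subset_insert x Y)⟩
      · simp only [h, if_false]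
        exact ⟨(subset_insert_iff.2 (g1 _ (eG A hA)).1), insert_subset_insert x (g1 _ (eG A hA)).2⟩
    · intro A hA B hB S a1 a2 b1 b2
      by_cases h : A ∈ F0 ∩ F1 <;> by_cases h' : B ∈ F0 ∩ F1
      · simp only [h, h', if_true] at a2 b2
        exact h2 A h B h' S a1 a2 b1 b2
      · simp only [h, h', if_true, if_false] at a2 b2
        exact (mixed A h B hB h' S a1 a2 b1 b2).elim
      · simp only [h, h', if_true, if_false] at a2 b2
        exact (mixed B h' A hA h S b1 b2 a1 a2).elim
      · simp only [h, h', if_false] at a2 b2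
        exact einj A hA h B hB h' (g2 _ (eG A hA) _ (eG B hB) (S.erase x) (erase_subset_erase x a1)
          (subset_insert_iff.1 a2) (erase_subset_erase x b1) (subset_insert_iff.1 b2))
    · rw [← sum_filter_add_sum_filter_not F (fun A => A ∈ F0 ∩ F1)]
      have e1 : F.filter (fun A => A ∈ F0 ∩ F1) = F0 ∩ F1 := by
        ext A
        simp only [mem_filter]
        exact ⟨fun h => h.2, fun h => ⟨((m0 A).1 (mem_inter.1 h).1).1, h⟩⟩
      have p1 : ∑ A ∈ F.filter (fun A => A ∈ F0 ∩ F1), ((insert x Y).card -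
          (if A ∈ F0 ∩ F1 then φH A else insert x (φG (A.erase x))).card)
          ≤ I (F0 ∩ F1).card + (F0 ∩ F1).card := by
        rw [e1]
        calc _ ≤ ∑ A ∈ F0 ∩ F1, ((Y.card - (φH A).card) + 1) := by
              apply sum_le_sum
              intro A hA
              simp only [hA, if_true, card_insert_of_notMem hx]
              omega
          _ ≤ _ := by
              rw [sum_add_distrib]
              simp only [sum_const, smul_eq_mul, mul_one]
              omega
      have p2 : ∑ A ∈ F.filter (fun A => ¬ A ∈ F0 ∩ F1), ((insert x Y).card -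
          (if A ∈ F0 ∩ F1 then φH A else insert x (φG (A.erase x))).card)
          ≤ I (F0 ∪ F1).card := by
        calc _ = ∑ A ∈ F.filter (fun A => ¬ A ∈ F0 ∩ F1), (Y.card - (φG (A.erase x)).card) := by
              apply sum_congr rfl
              intro A hA
              have hA' := mem_filter.1 hA
              have : x ∉ φG (A.erase x) := fun h => hx ((g1 _ (eG A hA'.1)).2 h)
              simp only [hA'.2, if_false, card_insert_of_notMem hx, card_insert_of_notMem this]
              omega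
          _ = ∑ B ∈ (F.filter (fun A => ¬ A ∈ F0 ∩ F1)).image (fun A => A.erase x),
                (Y.card - (φG B).card) := by
              rw [sum_image]
              intro A hA B hB h
              have hA' := mem_filter.1 hA
              have hB' := mem_filter.1 hB
              exact einj A hA'.1 hA'.2 B hB'.1 hB'.2 h
          _ ≤ ∑ B ∈ F0 ∪ F1, (Y.card - (φG B).card) := by
              apply sum_le_sum_of_subset
              intro B hB
              obtain ⟨A, hA, rfl⟩ := mem_image.1 hB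
              exact eG A (mem_filter.1 hA).1
          _ ≤ _ := g3
      have c1 : (F0 ∪ F1).card + (F0 ∩ F1).card = F.card := by
        rw [card_union_add_card_inter, add_comm]
        exact card_memberSubfamily_add_card_nonMemberSubfamily x F
      have c2 : (F0 ∩ F1).card ≤ (F0 ∪ F1).card := card_le_card inter_subset_union
      have c3 := I_super _ (F0 ∪ F1).card (F0 ∩ F1).card rfl
      rw [c1, min_eq_right c2] at c3
      exact le_trans (add_le_add p1 p2) (by omega)

theorem pack (X : Finset α) (F : Finset (Finset α)) (φ : Finset α → Finset α)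
    (h1 : ∀ A ∈ F, A ⊆ φ A ∧ φ A ⊆ X)
    (h2 : ∀ A ∈ F, ∀ B ∈ F, ∀ S, A ⊆ S → S ⊆ φ A → B ⊆ S → S ⊆ φ B → A = B) :
    ∑ A ∈ F, 2 ^ ((φ A).card - A.card) ≤ 2 ^ X.card := by
  have e : ∑ A ∈ F, 2 ^ ((φ A).card - A.card) = (F.biUnion (fun A => Icc A (φ A))).card := by
    rw [card_biUnion]
    · apply sum_congr rfl
      intro A hA
      rw [card_Icc_finset (h1 A hA).1]
    · intro A hA B hB hne
      rw [Function.onFun, disjoint_left]
      intro S hS hS'
      rw [mem_Icc] at hS hS'
      exact hne (h2 A hA B hB S hS.1 hS.2 hS'.1 hS'.2)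
  rw [e, ← card_powerset]
  apply card_le_card
  intro S hS
  obtain ⟨A, hA, hS⟩ := mem_biUnion.1 hS
  exact mem_powerset.2 ((mem_Icc.1 hS).2.trans (h1 A hA).2)

theorem tangent (c d : ℕ) : 2 ^ c * (1 + d) ≤ 2 ^ d + c * 2 ^ c := by
  rcases le_or_gt c d with h | h
  · obtain ⟨e, rfl⟩ := Nat.exists_eq_add_of_le h
    have : e + 1 ≤ 2 ^ e := Nat.lt_two_pow_self
    rw [pow_add]
    nlinarith [Nat.mul_le_mul_left (2 ^ c) this]
  · have : 2 ^ c * (1 + d) ≤ 2 ^ c * c := Nat.mul_le_mul_left _ (by omega)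
    nlinarith [Nat.zero_le (2 ^ d)]

theorem tangent_sum {β : Type*} (O : Finset β) (d : β → ℕ) (c : ℕ) :
    2 ^ c * (O.card + ∑ A ∈ O, d A) ≤ ∑ A ∈ O, 2 ^ d A + c * 2 ^ c * O.card := by
  have : ∑ A ∈ O, 2 ^ c * (1 + d A) ≤ ∑ A ∈ O, (2 ^ d A + c * 2 ^ c) :=
    sum_le_sum fun A _ => tangent c (d A)
  rw [← mul_sum, sum_add_distrib, sum_add_distrib] at this
  simp only [sum_const, smul_eq_mul, mul_one] at this
  nlinarith

end Pool.Agent.H.MP24ae9b
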