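import Pool.Agent.H.MP_24ae9b_co.C

set_option autoImplicit false

namespace Pool.Agent.H.MP24ae9b

open Finset

theorem lines (k x W : ℕ) (h1 : 2 ^ k ≤ x) (h2 : x ≤ 2 ^ (k + 1))
    (h : x * (k + 2) ≤ W + 2 ^ (k + 1)) (j : ℕ) : x * (j + 1) ≤ W + 2 ^ j := by
  rcases le_or_gt (k + 1) j with hj | hj
  · obtain ⟨t, rfl⟩ := Nat.exists_eq_add_of_le hj
    have ht : t + 1 ≤ 2 ^ t := Nat.lt_two_pow_self
    have e : 2 ^ (k + 1 + t) = 2 ^ (k + 1) * 2 ^ t := pow_add _ _ _
    have a1 : x * t ≤ 2 ^ (k + 1) * t := Nat.mul_le_mul_right _ h2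
    have a2 : 2 ^ (k + 1) * (t + 1) ≤ 2 ^ (k + 1) * 2 ^ t := Nat.mul_le_mul_left _ ht
    nlinarith
  · have key : ∀ t j, j + t = k + 1 → x * (j + 1) ≤ W + 2 ^ j := by
      intro t
      induction t with
      | zero => intro j hj; obtain rfl : j = k + 1 := by omega
                exact h
      | succ t ih =>
        intro j hj
        have a1 := ih (j + 1) (by omega)
        have a2 : 2 ^ j ≤ 2 ^ k := Nat.pow_le_pow_right (by norm_num) (by omega)
        have e : 2 ^ (j + 1) = 2 * 2 ^ j := by ring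
        nlinarith
    exact key (k + 1 - j) j (by omega)

theorem finish (K n x W S : ℕ) (h1 : 2 ^ K + K + 1 ≤ 2 * n) (h2 : 2 * n ≤ 2 ^ (K + 1) + K + 2)
    (hE : ∀ j, x * (j + 1) ≤ W + 2 ^ j) (hS : 2 * n + W ≤ 2 * S) :
    (K * 2 ^ K + 2 * n) * (x + 1) ≤ 2 * S * (2 ^ K + 1) := by
  have a1 := hE K
  have a2 := hE (K + 1)
  have e : 2 ^ (K + 1) = 2 * 2 ^ K := by ring
  rw [e] at h2 a2
  generalize 2 ^ K = P at *
  refine le_trans ?_ (Nat.mul_le_mul_right (P + 1) hS)
  rcases le_total P x with h | h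
  · obtain ⟨t, rfl⟩ := Nat.exists_eq_add_of_le h
    have b1 : K * P + t * (K + 2) ≤ W := by nlinarith
    have b2 := Nat.mul_le_mul_right (P + 1) b1
    have b3 := Nat.mul_le_mul_right t h2
    nlinarith
  · obtain ⟨t, rfl⟩ := Nat.exists_eq_add_of_le h
    have b1 : K * (x + t) ≤ W + t * (K + 1) := by nlinarith
    have b2 := Nat.mul_le_mul_right (x + t + 1) b1
    have b3 := Nat.mul_le_mul_right t h1
    nlinarith

variable {α : Type*} [DecidableEq α]

theorem data (T : Finset α) (G : Finset (Finset α)) (hs : ∀ A ∈ G, A ⊆ T) (hU : UC G) :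
    ∃ d : Finset α → ℕ, G.card * T.card ≤ ∑ A ∈ G, A.card + ∑ A ∈ G, d A + I G.card ∧
      ∑ A ∈ G, 2 ^ d A ≤ 2 ^ T.card ∧ (T ∈ G → d T = 0) ∧
      (T ∈ G → ∀ A ∈ G, A ≠ T → A.card + d A + 1 ≤ T.card) := by
  obtain ⟨φ, h1, h2, h3⟩ := reimer T G hs hU
  refine ⟨fun A => (φ A).card - A.card, ?_, pack T G φ h1 h2, ?_, ?_⟩
  · have : ∑ A ∈ G, T.card ≤ ∑ A ∈ G, (A.card + ((φ A).card - A.card) + (T.card - (φ A).card)) := by
      apply sum_le_sum
      intro A hA
      omega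
    rw [sum_add_distrib, sum_add_distrib, sum_const, smul_eq_mul] at this
    exact this.trans (Nat.add_le_add_left h3 _)
  · intro hT
    have := card_le_card (h1 T hT).2
    simp only
    omega
  · intro hT A hA hne
    have a1 := card_le_card (h1 A hA).1
    have a2 : (φ A).card < T.card := by
      apply card_lt_card
      refine ⟨(h1 A hA).2, fun h => hne ?_⟩
      exact h2 A hA T hT T (hs A hA) h subset_rfl (h1 T hT).1
    simp only
    omega

theorem tang {β : Type*} (O : Finset β) (d : β → ℕ) (n k : ℕ) (hk : k + 1 ≤ n)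
    (h : ∑ A ∈ O, 2 ^ d A ≤ 2 ^ n) :
    O.card + ∑ A ∈ O, d A ≤ 2 ^ (k + 1) + (n - (k + 1)) * O.card := by
  obtain ⟨c, rfl⟩ := Nat.exists_eq_add_of_le hk
  rw [Nat.add_sub_cancel_left]
  have a1 := tangent_sum O d c
  have e : 2 ^ (k + 1 + c) = 2 ^ c * 2 ^ (k + 1) := by ring
  have hp : 0 < 2 ^ c := by positivity
  apply Nat.le_of_mul_le_mul_left _ hp
  nlinarith

theorem R1 (T : Finset α) (hn : 1 ≤ T.card) (G : Finset (Finset α)) (hs : ∀ A ∈ G, A ⊆ T)
    (hU : UC G) (j : ℕ) : G.card * (j + 1) ≤ 2 * ∑ A ∈ G, A.card + 2 ^ j := by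
  rcases Nat.eq_zero_or_pos G.card with h0 | h0
  · simp [h0]
  have hle : G.card ≤ 2 ^ T.card := by
    rw [← card_powerset]
    exact card_le_card fun A hA => mem_powerset.2 (hs A hA)
  obtain ⟨k, k1, k2, k3⟩ : ∃ k, 2 ^ k ≤ G.card ∧ G.card ≤ 2 ^ (k + 1) ∧ k + 1 ≤ T.card := by
    rcases hle.lt_or_eq with hlt | heq
    · refine ⟨Nat.log 2 G.card, Nat.pow_log_le_self 2 (by omega),
        (Nat.lt_pow_succ_log_self (by norm_num) _).le, ?_⟩
      exact Nat.log_lt_of_lt_pow (by omega) hlt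
    · obtain ⟨k, hk⟩ : ∃ k, T.card = k + 1 := ⟨T.card - 1, by omega⟩
      refine ⟨k, ?_, ?_, by omega⟩
      · rw [heq, hk]; exact Nat.pow_le_pow_right (by norm_num) (by omega)
      · rw [heq, hk]
  obtain ⟨d, d1, d2, -, -⟩ := data T G hs hU
  apply lines k _ _ k1 k2
  have a1 := tang G d _ k k3 d2
  have a2 := I_chord k _ k1 k2
  obtain ⟨c, hc⟩ := Nat.exists_eq_add_of_le k3
  rw [hc, Nat.add_sub_cancel_left] at a1
  rw [hc] at d1
  nlinarith

theorem small (T : Finset α) (F O : Finset (Finset α)) (hs : ∀ A ∈ F, A ⊆ T) (hU : UC F)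
    (hO : O ⊆ F) (h8 : F.card = 8) (h5 : O.card = 5) : 5 ≤ ∑ A ∈ O, A.card := by
  set S := T.filter (fun x => ({x} : Finset α) ∈ F) with hS
  have key : ∀ C : Finset α, C ⊆ S → C.Nonempty → C ∈ F := by
    intro C hC hne
    induction hne using Nonempty.cons_induction with
    | singleton x => exact (mem_filter.1 (hC (mem_singleton_self x))).2
    | cons x C hx hne ih =>
      have h1 := (mem_filter.1 (hC (mem_cons_self x C))).2
      have h2 := ih (fun y hy => hC (mem_cons_of_mem hy))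
      have := hU _ h1 _ h2
      rwa [cons_eq_insert, insert_eq]
  have c1 : 2 ^ S.card ≤ 9 := by
    rw [← card_powerset]
    calc S.powerset.card ≤ (insert ∅ F).card := by
          apply card_le_card
          intro C hC
          rcases C.eq_empty_or_nonempty with rfl | hne
          · exact mem_insert_self _ _
          · exact mem_insert_of_mem (key C (mem_powerset.1 hC) hne)
      _ ≤ F.card + 1 := card_insert_le _ _
      _ = 9 := by rw [h8]
  have c2 : S.card ≤ 3 := by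
    by_contra hc
    have : 2 ^ 4 ≤ 2 ^ S.card := Nat.pow_le_pow_right (by norm_num) (by omega)
    omega
  have c3 : (O.filter (fun C => C.card = 1)).card ≤ 3 := by
    refine le_trans ?_ (card_image_le.trans c2 : (S.image (fun x => ({x} : Finset α))).card ≤ 3)
    apply card_le_card
    intro C hC
    obtain ⟨hC, h1⟩ := mem_filter.1 hC
    obtain ⟨x, rfl⟩ := card_eq_one.1 h1
    exact mem_image.2 ⟨x, mem_filter.2 ⟨hs _ (hO hC) (mem_singleton_self x), hO hC⟩, rfl⟩
  have c4 : (O.filter (fun C => C.card = 0)).card ≤ 1 := by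
    rw [card_le_one]
    intro C hC D hD
    rw [card_eq_zero.1 (mem_filter.1 hC).2, card_eq_zero.1 (mem_filter.1 hD).2]
  have c5 : ∑ C ∈ O, 2 ≤ ∑ C ∈ O, (C.card + 2 * (if C.card = 0 then 1 else 0) +
      (if C.card = 1 then 1 else 0)) := by
    apply sum_le_sum
    intro C _
    split_ifs <;> omega
  rw [sum_add_distrib, sum_add_distrib, ← mul_sum, ← card_filter, ← card_filter, sum_const,
    smul_eq_mul, h5] at c5
  omega

theorem main (T : Finset α) (hn : 1 ≤ T.card) (F : Finset (Finset α)) (hT : T ∈ F)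
    (hs : ∀ A ∈ F, A ⊆ T) (hU : UC F) (K : ℕ) (h1 : 2 ^ K + K + 1 ≤ 2 * T.card)
    (h2 : 2 * T.card ≤ 2 ^ (K + 1) + K + 2) :
    (K * 2 ^ K + 2 * T.card) * F.card ≤ 2 * (∑ A ∈ F, A.card) * (2 ^ K + 1) := by
  have hcard : F.card = (F.erase T).card + 1 := (card_erase_add_one hT).symm
  have hsum : ∑ A ∈ F, A.card = T.card + ∑ A ∈ F.erase T, A.card :=
    (add_sum_erase F (fun A => A.card) hT).symm
  by_cases hirr : UC (F.erase T)
  · rw [hcard]
    apply finish K _ _ (2 * ∑ A ∈ F.erase T, A.card) _ h1 h2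
    · exact R1 T hn _ (fun A hA => hs A (mem_of_mem_erase hA)) hirr
    · omega
  unfold UC at hirr
  push Not at hirr
  obtain ⟨A, hA, B, hB, hAB⟩ := hirr
  obtain ⟨hAT, hA⟩ := mem_erase.1 hA
  obtain ⟨hBT, hB⟩ := mem_erase.1 hB
  have hABT : A ∪ B = T := by
    by_contra h
    exact hAB (mem_erase.2 ⟨h, hU A hA B hB⟩)
  have hne : A ≠ B := by
    rintro rfl
    exact hAT (by simpa using hABT)
  have hc : T.card ≤ A.card + B.card := hABT ▸ card_union_le A B
  by_cases hbig : 2 ^ (K + 2) ≤ F.card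
  · have a1 := R1 T hn F hs hU (K + 2)
    have a2 : F.card * (K + 2) ≤ 2 * ∑ A ∈ F, A.card := by nlinarith
    have a3 := Nat.mul_le_mul_right (2 ^ K + 1) a2
    have e : 2 ^ (K + 1) = 2 * 2 ^ K := by ring
    have a4 : K * 2 ^ K + 2 * T.card ≤ (K + 2) * (2 ^ K + 1) := by nlinarith
    have a5 := Nat.mul_le_mul_right F.card a4
    nlinarith
  set O := ((F.erase T).erase A).erase B with hO
  have hA' : A ∈ F.erase T := mem_erase.2 ⟨hAT, hA⟩
  have hB' : B ∈ (F.erase T).erase A := mem_erase.2 ⟨hne.symm, mem_erase.2 ⟨hBT, hB⟩⟩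
  have split : ∀ f : Finset α → ℕ, ∑ C ∈ F, f C = f T + f A + f B + ∑ C ∈ O, f C := by
    intro f
    rw [← add_sum_erase F f hT, ← add_sum_erase _ f hA', ← add_sum_erase _ f hB']
    ring
  have hOc : F.card = O.card + 3 := by
    have := split (fun _ => 1)
    simp only [sum_const, smul_eq_mul, mul_one] at this
    omega
  have hOF : O ⊆ F := fun C hC => mem_of_mem_erase (mem_of_mem_erase (mem_of_mem_erase hC))
  obtain ⟨d, d1, d2, d3, d4⟩ := data T F hs hU
  have dT := d3 hT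
  have dA := d4 hT A hA hAT
  have dB := d4 hT B hB hBT
  have s1 := split (fun C => C.card)
  have s2 := split d
  have s3 := split (fun C => 2 ^ d C)
  rw [dT] at s2 s3
  have hge : O.card ≤ ∑ C ∈ O, 2 ^ d C := by
    rw [card_eq_sum_ones]
    exact sum_le_sum fun C _ => Nat.one_le_two_pow
  set k := Nat.log2 (F.card - 1) with hk
  have k1 : 2 ^ k ≤ F.card - 1 := Nat.log2_self_le (by omega)
  have k2 : F.card - 1 < 2 ^ (k + 1) := Nat.lt_log2_self
  have pA : 1 ≤ 2 ^ d A := Nat.one_le_two_pow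
  have pB : 1 ≤ 2 ^ d B := Nat.one_le_two_pow
  have k3 : k + 1 ≤ T.card := by
    have : 2 ^ k < 2 ^ T.card := by omega
    exact (Nat.pow_lt_pow_iff_right (by norm_num)).1 this
  by_cases hl : 5 * k + 6 ≤ 2 * T.card
  · have a1 := tang O d _ k k3 (by omega)
    have a2 := I_chord k F.card (by omega) (by omega)
    have hx : F.card = (O.card + 2) + 1 := by omega
    rw [hx]
    apply finish K _ _ (2 * ∑ A ∈ F, A.card - 2 * T.card) _ h1 h2
    · apply lines k _ _ (by omega) (by omega)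
      obtain ⟨c, hc'⟩ := Nat.exists_eq_add_of_le k3
      rw [hc', Nat.add_sub_cancel_left] at a1
      have a3 : (O.card + 2) * (k + 2) + 2 * T.card ≤ 2 * ∑ A ∈ F, A.card + 2 ^ (k + 1) := by
        rw [hOc] at d1 a2
        have a4 : d A + d B + 2 ≤ T.card := by omega
        rw [hc'] at d1 a4 hl ⊢
        nlinarith
      omega
    · omega
  have kK : k < K + 2 := by
    have : 2 ^ k < 2 ^ (K + 2) := by omega
    exact (Nat.pow_lt_pow_iff_right (by norm_num)).1 this
  have hK : K < 5 := by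
    by_contra hK
    obtain ⟨t, rfl⟩ := Nat.exists_eq_add_of_le (not_lt.1 hK)
    have : t + 1 ≤ 2 ^ t := Nat.lt_two_pow_self
    have e : 2 ^ (5 + t) = 32 * 2 ^ t := by ring
    omega
  by_cases hx1 : T.card = 3 ∧ F.card = 4
  · obtain ⟨e1, e2⟩ := hx1
    have : 6 ≤ ∑ A ∈ F, A.card := by omega
    rw [e1] at h1 h2 ⊢
    rw [e2]
    interval_cases K <;> omega
  by_cases hx2 : T.card = 5 ∧ F.card = 8
  · obtain ⟨e1, e2⟩ := hx2
    have := small T F O hs hU hOF e2 (by omega)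
    have : 15 ≤ ∑ A ∈ F, A.card := by omega
    rw [e1] at h1 h2 ⊢
    rw [e2]
    interval_cases K <;> omega
  obtain ⟨c, hc'⟩ := fin_check T.card K F.card (d A) (d B) (by omega) hK h1 h2 (by omega)
    (by omega) hx1 hx2 (by omega) (by omega) (by omega)
  have t1 := tangent_sum O d c
  have hp : 0 < 2 ^ c := by positivity
  have t2 : O.card + ∑ C ∈ O, d C ≤
      (2 ^ T.card - 1 - 2 ^ d A - 2 ^ d B) / 2 ^ c + c * O.card := by
    have t3 : ∑ C ∈ O, 2 ^ d C ≤ 2 ^ T.card - 1 - 2 ^ d A - 2 ^ d B := by omega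
    rw [← Nat.add_mul_div_right _ _ hp, Nat.le_div_iff_mul_le hp]
    nlinarith
  rw [show F.card - 3 = O.card by omega] at hc'
  generalize (2 ^ T.card - 1 - 2 ^ d A - 2 ^ d B) / 2 ^ c + c * O.card = u at hc' t2
  have t4 : F.card * T.card + O.card ≤ ∑ A ∈ F, A.card + (I F.card + d A + d B + u) := by omega
  have t5 := Nat.mul_le_mul_left (2 * (2 ^ K + 1)) t4
  nlinarith

end Pool.Agent.H.MP24ae9b
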