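import Pool.Agent.H.MP_24ae9b_co.A

set_option autoImplicit false

namespace Pool.Agent.H.MP24ae9b

def ok (n K m a b i : ℕ) : Bool :=
  (List.range 16).any fun c =>
    Nat.ble ((K * 2 ^ K + 2 * n) * m + 2 * (2 ^ K + 1) *
      (i + a + b + ((2 ^ n - 1 - 2 ^ a - 2 ^ b) / 2 ^ c + c * (m - 3))))
      (2 * (2 ^ K + 1) * (m * n + (m - 3)))

def chkM (n K m : ℕ) : Bool :=
  (Nat.beq n 3 && Nat.beq m 4) || (Nat.beq n 5 && Nat.beq m 8) ||
  Nat.ble (5 * Nat.log2 (m - 1) + 6) (2 * n) ||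
  (List.range (n - 1)).all fun a => (List.range (n - 1 - a)).all fun b =>
    Nat.blt (2 ^ n) (1 + 2 ^ a + 2 ^ b + (m - 3)) || ok n K m a b (I m)

def chk : Bool :=
  (List.range 16).all fun n => (List.range 5).all fun K =>
    Nat.blt (2 * n) (2 ^ K + K + 1) || Nat.blt (2 ^ (K + 1) + K + 2) (2 * n) ||
    (List.range (2 ^ (K + 2) - 3)).all fun j => chkM n K (j + 3)

theorem chk_true : chk = true := by decide +kernel

theorem fin_check (n K m a b : ℕ) (hn : n < 16) (hK : K < 5) (h1 : 2 ^ K + K + 1 ≤ 2 * n)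
    (h2 : 2 * n ≤ 2 ^ (K + 1) + K + 2) (hm : 3 ≤ m) (hm' : m < 2 ^ (K + 2))
    (hx1 : ¬ (n = 3 ∧ m = 4)) (hx2 : ¬ (n = 5 ∧ m = 8))
    (hl : 2 * n < 5 * Nat.log2 (m - 1) + 6) (hab : a + b + 2 ≤ n)
    (hp : 1 + 2 ^ a + 2 ^ b + (m - 3) ≤ 2 ^ n) :
    ∃ c, (K * 2 ^ K + 2 * n) * m + 2 * (2 ^ K + 1) *
      (I m + a + b + ((2 ^ n - 1 - 2 ^ a - 2 ^ b) / 2 ^ c + c * (m - 3))) ≤
      2 * (2 ^ K + 1) * (m * n + (m - 3)) := by
  have h := chk_true
  unfold chk at h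
  rw [List.all_eq_true] at h
  have h := h n (List.mem_range.2 hn)
  rw [List.all_eq_true] at h
  have h := h K (List.mem_range.2 hK)
  simp only [Bool.or_eq_true, Nat.blt_eq, List.all_eq_true, List.mem_range] at h
  rcases h with (h | h) | h
  · omega
  · omega
  have h := h (m - 3) (by omega)
  rw [Nat.sub_add_cancel hm] at h
  unfold chkM at h
  simp only [Bool.or_eq_true, Bool.and_eq_true, Nat.blt_eq, Nat.ble_eq, Nat.beq_eq,
    List.all_eq_true, List.mem_range] at h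
  rcases h with ((h | h) | h) | h
  · exact absurd h hx1
  · exact absurd h hx2
  · omega
  rcases h a (by omega) b (by omega) with h | h
  · omega
  unfold ok at h
  simp only [List.any_eq_true, Nat.ble_eq] at h
  obtain ⟨c, _, hc⟩ := h
  exact ⟨c, hc⟩

end Pool.Agent.H.MP24ae9b
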